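import Mathlib

namespace Pool.Agent.Results.MP_5f67f4_co.Counter

open Finset

/-- The deletion shadow of a family of words of length `m + 1` over an alphabet of size `r`. -/
def shadow {r m : ℕ} (F : Finset (Fin (m + 1) → Fin r)) : Finset (Fin m → Fin r) :=
  F.biUnion fun w => univ.image fun i : Fin (m + 1) => fun j => w (i.succAbove j)

/-- `F` has minimal deletion shadow given its size. -/
def Minimal {r m : ℕ} (F : Finset (Fin (m + 1) → Fin r)) : Prop :=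
  ∀ G : Finset (Fin (m + 1) → Fin r), G.card = F.card → (shadow F).card ≤ (shadow G).card

/-- Number of occurrences of the letter `x`; the element `a : Fin r` is the letter `a + 1`. -/
def c {r n : ℕ} (x : ℕ) (w : Fin n → Fin r) : ℕ := (univ.filter fun i => (w i).val + 1 = x).card

def G : Finset (Fin 4 → Fin 3) :=
  {![0, 0, 0, 0], ![0, 0, 0, 1], ![0, 0, 0, 2], ![0, 0, 1, 0], ![0, 0, 1, 1], ![0, 0, 1, 2],
   ![0, 0, 2, 1], ![0, 1, 0, 0], ![0, 1, 0, 1], ![0, 1, 0, 2], ![0, 1, 1, 0], ![0, 1, 1, 1],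
   ![0, 1, 1, 2], ![0, 1, 2, 1], ![0, 2, 1, 1], ![1, 0, 0, 0], ![1, 0, 0, 1], ![1, 0, 0, 2],
   ![1, 0, 1, 0], ![1, 0, 1, 1], ![1, 0, 1, 2], ![1, 0, 2, 1], ![1, 1, 0, 0], ![1, 1, 0, 1],
   ![1, 1, 0, 2], ![1, 1, 1, 0], ![1, 1, 1, 1], ![1, 1, 1, 2], ![1, 1, 2, 1], ![1, 2, 1, 1],
   ![2, 0, 0, 0], ![2, 1, 1, 1]}

/-- The signature `(c_r w, c_{r-1} w, ..., c_1 w)`. -/
def sig {r n : ℕ} (w : Fin n → Fin r) : Fin r → ℕ := fun j => c (r - j.val) w

/-- The family of words whose signature is lexicographically at most `s`. -/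
def Fam (r n : ℕ) (s : Fin r → ℕ) : Finset (Fin n → Fin r) :=
  univ.filter fun w => sig w = s ∨ ∃ i, (∀ j < i, sig w j = s j) ∧ sig w i < s i

theorem result : ¬ Minimal (Fam 3 (3 + 1) ![1, 1, 2]) ∧
    ¬ ∀ (r m : ℕ) (s : Fin r → ℕ), 2 ≤ r → ∑ j, s j = m + 1 → Minimal (Fam r (m + 1) s) := by
  have h : ¬ Minimal (Fam 3 (3 + 1) ![1, 1, 2]) := fun h =>
    absurd (h G (by decide +kernel)) (by decide +kernel)
  exact ⟨h, fun H => h (H 3 3 _ (by norm_num) (by decide))⟩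

end Pool.Agent.Results.MP_5f67f4_co.Counter
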